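import Mathlib
import Pool.Agent.Work.MP_29a457_al.Defs
import Pool.Agent.Work.MP_29a457_al.Acyl
import Pool.Agent.Work.MP_29a457_al.Exist

/-!
# Acylindrical tree actions with finitely generated edge stabilisers: a negative answer

There is a finitely presented, acylindrically arboreal group `G` such that every non-elementary
acylindrical action of `G` on a simplicial tree has an edge stabiliser that is not finitely
generated.

The group. Let `Q` be Higman's group (finitely presented, infinite, without proper subgroups of
finite index) and let `L`, `M` be two copies of it, with generators `l i`, `m i`.  `G` is generated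
by `l i, m i, x, y, t, s` subject to the relations of `L` and `M`, `[l i, m j] = 1`,
`[x, l i * m i] = 1`, `[y, l i] = 1`, `[t, m i] = [t, x] = [t, y] = 1`, and, with `z = [x, y]`,
`[z, m i] = [z, x] = [z, y] = 1` and `[s, z] = 1`.  Let `B` be the subgroup generated by everything
but `s` and `N` the kernel of the projection of `B` onto `Q` (`l i` goes to its image, the other
generators to `1`).  Then `z` is central in `N`, the conjugates of `z` by `B` are independent, and
`G` is the amalgam of `B` and `A = ⟨N, s⟩` over `N`, whose tree is `(5,1)`-acylindrical.
A finitely generated subgroup of `G` containing `N` contains `B` (`Star.star`).  In an acylindrical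
action without a global fixed point `z` is elliptic (Heisenberg relation), its centraliser fixes a
vertex `a`, then `B`, which normalises `N`, fixes a vertex `b`, and the last vertex on the way from
`b` to `a` fixed by `B` starts an edge whose stabiliser contains `N` but not `B`.
-/

namespace Pool.Agent.Results.MP_29a457_al.InfinitelyGeneratedEdges

open Pool.Agent.Work.MP_29a457_al

universe w

/-- **Negative answer to Q1.** Some finitely presented, acylindrically arboreal group `G` has, in
every non-elementary acylindrical action on a simplicial tree, an edge stabiliser that is not
finitely generated. -/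
theorem result : ∃ (G : Type) (_ : Group G), Group.IsFinitelyPresented G ∧
    (∃ (V : Type) (_ : MulAction G V) (T : SimpleGraph V),
      IsTreeAction G T ∧ IsAcylindrical G T ∧ IsNonElementary G T) ∧
    ∀ (V : Type w) (_ : MulAction G V) (T : SimpleGraph V),
      IsTreeAction G T → IsAcylindrical G T → IsNonElementary G T →
        ∃ u v : V, T.Adj u v ∧ ¬ (edgeStabilizer G u v).FG :=
  ⟨Grp.G, inferInstance, Grp.finitelyPresented,
    ⟨Exist.Vx, inferInstance, Exist.Tr, Exist.isTreeAction, Exist.isAcylindrical,
      Exist.nonElementary⟩,
    fun _ _ _ hT hac hne => Acyl.main hT hac hne.1⟩

end Pool.Agent.Results.MP_29a457_al.InfinitelyGeneratedEdges
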